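import Pool.Agent.H508R3.AT.T6a
import Pool.Agent.Y663.SH.U4

/-! The transfer matrices are bounded with positive probability. -/

set_option autoImplicit false

namespace Pool.Agent.Y663.SH

open MeasureTheory Filter Topology Set Matrix
open Pool.Agent.H695R3.AT
open Pool.Agent.H508R3.AT
open Pool.Agent.H508R3.SC (M2 ns)

variable {s : ℕ → ℕ}

lemma sec_bound' (lam : ℝ) (g g' v : Om s) {a b : ℝ} (hab : a < b) (R : ℝ)
    (N k K0 : ℕ) (hdet : ∀ᵐ E : ℝ, Dt s lam g g' N E ≠ 0)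
    (hK0 : volume {E | E ∈ Icc a b ∧ (K0 : ℝ) < Ph s lam g g' N R E} ≤
      ENNReal.ofReal ((b - a) / 8))
    (h1 : comb s N g v ∈ Bset s lam a b R (1 / 16))
    (h2 : comb s N g' v ∈ Bset s lam a b R (1 / 16)) :
    ENNReal.ofReal ((b - a) / 2) ≤ volume (Prod.mk v ⁻¹'
      {p : Om s × ℝ | p.2 ∈ Icc a b ∧ ns (TT s lam p.1 p.2 N k) ≤ max (K0 : ℝ) 1}) :=
  (sec_bound lam g g' v hab R N k K0 hdet hK0 h1 h2).trans (measure_mono (fun _ hE => hE))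

theorem u6 (h5 : T5) (hs : ∀ n, 0 < s n) (P : Vtx s → Measure ℝ) (σ : Vtx s → ℝ) (L κ : ℝ)
    (hG : GoodFam P σ L κ) (hinf : ∀ M : ℕ, ∃ n, M ≤ n ∧ 0 < VV σ n) (a b : ℝ) (hab : a < b)
    (R : ℝ) (hB : PQ P (Bset s 1 a b R (1 / 16)) ≠ 0) :
    ∃ (N : ℕ) (K : ℝ), 0 < K ∧ ∀ k : ℕ, ENNReal.ofReal ((b - a) / 4) ≤
      ((PQ P).prod volume) {p : Om s × ℝ | p.2 ∈ Icc a b ∧ ns (TT s 1 p.1 p.2 N k) ≤ K} := by
  have hP := hG.prob
  obtain ⟨N, g, g', hgg, hsum, h1, h2⟩ := u4 P σ L κ hG hinf _ (Bset_meas 1 a b R (1 / 16)) hB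
    (1 / 8) (by norm_num)
  have hdet : ∀ᵐ E : ℝ, Dt s 1 g g' (N + 1) E ≠ 0 := h5 s hs 1 one_ne_zero N g g' hgg hsum
  obtain ⟨K0, hK0⟩ := exists_bound (Ph_meas 1 g g' (N + 1) R) a b
    (ε := ENNReal.ofReal ((b - a) / 8)) (by rw [ENNReal.ofReal_pos]; linarith)
  refine ⟨N + 1, max K0 1, by positivity, fun k => ?_⟩
  have c1 : PQ P {v | comb s (N + 1) g v ∈ Bset s 1 a b R (1 / 16)}ᶜ ≤ ENNReal.ofReal (1 / 8) :=
    (measure_mono (fun _ hv => hv)).trans h1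
  have c2 : PQ P {v | comb s (N + 1) g' v ∈ Bset s 1 a b R (1 / 16)}ᶜ ≤ ENNReal.ofReal (1 / 8) :=
    (measure_mono (fun _ hv => hv)).trans h2
  have hGP := half_le (PQ P) (Good_meas 1 a b R g g' (N + 1)) c1 c2
  refine fubini_low (PQ P) (nsset_meas' 1 (N + 1) k a b (max K0 1)) hGP (by linarith) ?_
  intro v hv
  exact sec_bound' 1 g g' v hab R (N + 1) k K0 hdet hK0 hv.1 hv.2

end Pool.Agent.Y663.SH
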