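import Pool.Agent.Y663.SH.Defs

/-! Resampling is measure preserving, and the conditional zero-one step. -/

set_option autoImplicit false

namespace Pool.Agent.Y663.SH

open MeasureTheory Filter Topology Set
open scoped symmDiff ENNReal
open Pool.Agent.H695R3.AT
open Pool.Agent.H508R3.AT

variable {s : ℕ → ℕ}

lemma comb_meas2 (N : ℕ) : Measurable (fun p : Om s × Om s => comb s N p.1 p.2) := by
  unfold comb
  refine measurable_pi_lambda _ fun x => ?_
  by_cases h : x.1 < N
  · simp only [h, if_true]; fun_prop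
  · simp only [h, if_false]; fun_prop

theorem u0 (P : Vtx s → Measure ℝ) [∀ x, IsProbabilityMeasure (P x)] (N : ℕ) :
    MeasurePreserving (fun p : Om s × Om s => comb s N p.1 p.2) ((PQ P).prod (PQ P)) (PQ P) := by
  classical
  have hm : Measurable (fun p : Om s × Om s => comb s N p.1 p.2) := comb_meas2 N
  refine ⟨hm, ?_⟩
  have key : Measure.map (fun p : Om s × Om s => comb s N p.1 p.2) ((PQ P).prod (PQ P))
      = Measure.infinitePi P := by
    refine Measure.eq_infinitePi _ fun F t ht => ?_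
    have hF : MeasurableSet (Set.pi (F : Set (Vtx s)) t) :=
      MeasurableSet.pi F.countable_toSet fun i _ => ht i
    rw [Measure.map_apply hm hF]
    have hpre : (fun p : Om s × Om s => comb s N p.1 p.2) ⁻¹' (Set.pi (F : Set (Vtx s)) t)
        = (Set.pi ((F.filter fun x => x.1 < N : Finset (Vtx s)) : Set (Vtx s)) t) ×ˢ
          (Set.pi ((F.filter fun x => ¬ x.1 < N : Finset (Vtx s)) : Set (Vtx s)) t) := by
      ext p
      simp only [Set.mem_preimage, Set.mem_pi, Set.mem_prod, Finset.coe_filter, Set.mem_ofPred_eq,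
        Finset.mem_coe, comb]
      constructor
      · intro h
        refine ⟨fun i hi => ?_, fun i hi => ?_⟩
        · have := h i hi.1
          rwa [if_pos hi.2] at this
        · have := h i hi.1
          rwa [if_neg hi.2] at this
      · intro h i hi
        by_cases hN : i.1 < N
        · rw [if_pos hN]; exact h.1 i ⟨hi, hN⟩
        · rw [if_neg hN]; exact h.2 i ⟨hi, hN⟩
    rw [hpre, Measure.prod_prod]
    unfold PQ
    rw [Measure.infinitePi_pi _ (fun i _ => ht i), Measure.infinitePi_pi _ (fun i _ => ht i)]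
    exact Finset.prod_filter_mul_prod_filter_not F (fun x => x.1 < N) (fun i => P i (t i))
  exact key

/-- approximation by a set depending only on the shells `< N` -/
lemma approx (P : Vtx s → Measure ℝ) [∀ x, IsProbabilityMeasure (P x)] (B : Set (Om s))
    (hB : MeasurableSet B) (η : ℝ≥0∞) (hη : 0 < η) :
    ∃ (N : ℕ) (C : Set (Om s)), MeasurableSet C ∧
      (∀ N', N ≤ N' → ∀ g v : Om s, (comb s N' g v ∈ C ↔ g ∈ C)) ∧ PQ P (C ∆ B) < η := by
  have hring : IsSetRing (measurableCylinders fun _ : Vtx s => ℝ) :=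
    { empty_mem := empty_mem_measurableCylinders _
      union_mem := fun _ _ h1 h2 => union_mem_measurableCylinders h1 h2
      sdiff_mem := fun _ _ h1 h2 => sdiff_mem_measurableCylinders h1 h2 }
  obtain ⟨C, hC, hCB⟩ := exists_measure_symmDiff_lt_of_generateFrom_isSetRing (μ := PQ P) hring
    ⟨{univ}, countable_singleton _,
      by simpa using univ_mem_measurableCylinders (fun _ : Vtx s => ℝ), by simp⟩
    (generateFrom_measurableCylinders).symm hB hη
  obtain ⟨t, S, hS, rfl⟩ := (mem_measurableCylinders _).1 hC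
  obtain ⟨N, hN⟩ := exists_shells t
  refine ⟨N, _, hS.cylinder, ?_, hCB⟩
  intro N' hN' g v
  rw [mem_cylinder, mem_cylinder]
  have : t.restrict (comb s N' g v) = t.restrict g := by
    funext x
    have h1 : x.1.1 < N := mem_shells.1 (hN x.2)
    have h2 : x.1.1 < N' := h1.trans_le hN'
    simp [Finset.restrict, comb, h2]
  rw [this]

theorem u3 (P : Vtx s → Measure ℝ) [∀ x, IsProbabilityMeasure (P x)] (B : Set (Om s))
    (hB : MeasurableSet B) (hB0 : PQ P B ≠ 0) (ε : ℝ) (hε : 0 < ε) :
    ∃ N0 : ℕ, ∀ N, N0 ≤ N → ∃ g : Om s, PQ P {v | comb s N g v ∉ B} ≤ ENNReal.ofReal ε := by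
  set Q := PQ P with hQ
  have hε' : (0 : ℝ≥0∞) < ENNReal.ofReal ε := ENNReal.ofReal_pos.2 hε
  have hB2 : (0 : ℝ≥0∞) < Q B / 2 := ENNReal.half_pos hB0
  obtain ⟨N0, C, hCm, hC0, hCB⟩ := approx P B hB (min (Q B / 2) (ENNReal.ofReal ε * (Q B / 2)))
    (lt_min hB2 (ENNReal.mul_pos hε'.ne' hB2.ne'))
  refine ⟨N0, fun N hN => ?_⟩
  by_contra hcon
  push Not at hcon
  have hC : ∀ g v : Om s, (comb s N g v ∈ C ↔ g ∈ C) := hC0 N hN
  have h1 : Q B ≤ Q C + Q (C ∆ B) := by
    refine (measure_mono (fun x hx => ?_)).trans (measure_union_le C (C ∆ B))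
    by_cases h : x ∈ C
    · exact Or.inl h
    · exact Or.inr (Or.inr ⟨hx, h⟩)
  have h2 : Q B / 2 ≤ Q C := by
    have h3 : Q B ≤ Q C + Q B / 2 := h1.trans (by
      gcongr
      exact hCB.le.trans (min_le_left _ _))
    have h4 : Q B / 2 + Q B / 2 ≤ Q C + Q B / 2 := by rwa [ENNReal.add_halves]
    exact (ENNReal.add_le_add_iff_right
      (ENNReal.div_ne_top (measure_ne_top _ _) (by norm_num))).1 h4
  have hmp := (u0 P N).measure_preimage (hCm.diff hB).nullMeasurableSet
  have h5 : ENNReal.ofReal ε * Q C ≤ Q (C \ B) := by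
    rw [← hmp, Measure.prod_apply ((comb_meas2 N) (hCm.diff hB))]
    rw [← setLIntegral_const]
    refine (setLIntegral_mono' hCm fun g hg => ?_).trans (setLIntegral_le_lintegral C _)
    refine (hcon g).le.trans (measure_mono fun v hv => ?_)
    exact ⟨(hC g v).2 hg, hv⟩
  have h6 : Q (C \ B) ≤ Q (C ∆ B) := measure_mono fun x hx => Or.inl hx
  have h7 : ENNReal.ofReal ε * (Q B / 2) < ENNReal.ofReal ε * (Q B / 2) :=
    calc ENNReal.ofReal ε * (Q B / 2) ≤ ENNReal.ofReal ε * Q C := by gcongr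
      _ ≤ Q (C \ B) := h5
      _ ≤ Q (C ∆ B) := h6
      _ < _ := hCB
      _ ≤ _ := min_le_right _ _
  exact lt_irrefl _ h7

end Pool.Agent.Y663.SH
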