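import Pool.Agent.H378R3.AT_T8a
import Pool.Agent.H220R3.AT_T8bCore
import Pool.Agent.Y663.SH.U0

/-! The density of the image of the unit disc and the energy identity. -/

set_option autoImplicit false

namespace Pool.Agent.Y663.SH

open MeasureTheory Filter Topology Set Matrix
open Pool.Agent.H695R3.AT
open Pool.Agent.H508R3.SC (M2 ns)
open Pool.Agent.H508R3.AT
open Pool.Agent.H378R3.ATT8a (DD DD_vol DD_sub)

variable {s : ℕ → ℕ}

theorem u8a (lam : ℝ) (P : Vtx s → Measure ℝ) [∀ x, IsProbabilityMeasure (P x)] (N k : ℕ) :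
    Measurable (fun p : ℝ × (ℝ × ℝ) => fq lam P p.1 N k p.2) ∧
    ∀ E : ℝ, (∀ z, 0 ≤ fq lam P E N k z ∧ fq lam P E N k z ≤ 1) ∧
      ∫⁻ z, ENNReal.ofReal (fq lam P E N k z) ≤ ENNReal.ofReal 4 ∧
      ∀ K : ℝ, 0 < K →
        ENNReal.ofReal (3 * (PQ P).real {v | ns (TT s lam v E N k) ≤ K}) ≤
          ∫⁻ z in {z : ℝ × ℝ | z.1 ^ 2 + z.2 ^ 2 ≤ K}, ENNReal.ofReal (fq lam P E N k z) := by
  have hmeas : MeasurableSet {p : Om s × (ℝ × (ℝ × ℝ)) |
      ((TT s lam p.1 p.2.1 N k) 1 1 * p.2.2.1 - (TT s lam p.1 p.2.1 N k) 0 1 * p.2.2.2) ^ 2 +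
      ((TT s lam p.1 p.2.1 N k) 0 0 * p.2.2.2 - (TT s lam p.1 p.2.1 N k) 1 0 * p.2.2.1) ^ 2 ≤ 1} := by
    have hT : ∀ i j, Measurable (fun p : Om s × (ℝ × (ℝ × ℝ)) => (TT s lam p.1 p.2.1 N k) i j) :=
      fun i j => (TT_meas (s := s) lam N k i j).comp
        (measurable_fst.prodMk (measurable_fst.comp measurable_snd))
    have h00 := hT 0 0
    have h01 := hT 0 1
    have h10 := hT 1 0
    have h11 := hT 1 1
    apply measurableSet_le
    · fun_prop
    · exact measurable_const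
  refine ⟨?_, fun E => ⟨fun z => ⟨measureReal_nonneg, measureReal_le_one⟩, ?_⟩⟩
  · exact (measurable_measure_prodMk_right hmeas).ennreal_toReal
  · have hmE : MeasurableSet {p : Om s × (ℝ × ℝ) | p.2 ∈ DD (TT s lam p.1 E N k)} := by
      have hc : Measurable (fun p : Om s × (ℝ × ℝ) => (p.1, ((E, p.2) : ℝ × (ℝ × ℝ)))) := by fun_prop
      exact hc hmeas
    have hton : ∀ (ν : Measure (ℝ × ℝ)) [SFinite ν],
        ∫⁻ z, ENNReal.ofReal (fq lam P E N k z) ∂ν =
          ∫⁻ v, ν (DD (TT s lam v E N k)) ∂(PQ P) := by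
      intro ν _
      have h1 := Measure.prod_apply (μ := PQ P) (ν := ν) hmE
      have h2 := Measure.prod_apply_symm (μ := PQ P) (ν := ν) hmE
      rw [h1] at h2
      have h3 : ∀ z, ENNReal.ofReal (fq lam P E N k z) =
          PQ P ((fun v => (v, z)) ⁻¹' {p : Om s × (ℝ × ℝ) | p.2 ∈ DD (TT s lam p.1 E N k)}) := by
        intro z
        unfold fq
        rw [Measure.real, ENNReal.ofReal_toReal (measure_ne_top _ _)]
        rfl
      simp_rw [h3]
      exact h2.symm
    constructor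
    · rw [hton volume]
      have h4 : ∀ v, volume (DD (TT s lam v E N k)) = ENNReal.ofReal Real.pi :=
        fun v => DD_vol _ (TT_det _ _ _ _ _)
      simp_rw [h4]
      rw [lintegral_const, measure_univ, mul_one]
      exact ENNReal.ofReal_le_ofReal Real.pi_le_four
    · intro K hK
      rw [hton (volume.restrict {z : ℝ × ℝ | z.1 ^ 2 + z.2 ^ 2 ≤ K})]
      have hns : MeasurableSet {v : Om s | ns (TT s lam v E N k) ≤ K} := by
        have hT : ∀ i j, Measurable (fun v : Om s => (TT s lam v E N k) i j) :=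
          fun i j => (TT_meas (s := s) lam N k i j).comp (measurable_id.prodMk measurable_const)
        have h00 := hT 0 0
        have h01 := hT 0 1
        have h10 := hT 1 0
        have h11 := hT 1 1
        unfold ns
        apply measurableSet_le
        · fun_prop
        · exact measurable_const
      have hB : MeasurableSet {z : ℝ × ℝ | z.1 ^ 2 + z.2 ^ 2 ≤ K} := by
        apply measurableSet_le
        · fun_prop
        · exact measurable_const
      calc ENNReal.ofReal (3 * (PQ P).real {v | ns (TT s lam v E N k) ≤ K})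
          = ENNReal.ofReal 3 * (PQ P) {v | ns (TT s lam v E N k) ≤ K} := by
            rw [ENNReal.ofReal_mul (by norm_num), Measure.real,
              ENNReal.ofReal_toReal (measure_ne_top _ _)]
        _ = ∫⁻ _v in {v | ns (TT s lam v E N k) ≤ K}, ENNReal.ofReal 3 ∂(PQ P) := by
            rw [setLIntegral_const]
        _ ≤ ∫⁻ v in {v | ns (TT s lam v E N k) ≤ K},
              (volume.restrict {z : ℝ × ℝ | z.1 ^ 2 + z.2 ^ 2 ≤ K}) (DD (TT s lam v E N k)) ∂(PQ P) := by
            apply setLIntegral_mono' hns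
            intro v hv
            rw [Measure.restrict_apply' hB, inter_eq_left.2 (DD_sub _ (TT_det _ _ _ _ _) K hv),
              DD_vol _ (TT_det _ _ _ _ _)]
            exact ENNReal.ofReal_le_ofReal Real.pi_gt_three.le
        _ ≤ _ := setLIntegral_le_lintegral _ _

/-- one step of the recursion for the densities -/
lemma fq_succ (lam : ℝ) (P : Vtx s → Measure ℝ) [∀ x, IsProbabilityMeasure (P x)] (E : ℝ)
    (N k : ℕ) (z : ℝ × ℝ) : fq lam P E N (k + 1) z =
      ∫ v, fq lam P E N k (z.2, (YY s lam v (N + k) E)⁻¹ * z.2 - z.1) ∂(PQ P) := by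
  set Q := PQ P with hPdef
  have hmT : ∀ (k : ℕ) (i j : Fin 2), Measurable (fun v : Om s => TT s lam v E N k i j) :=
    fun k i j => (TT_meas lam N k i j).comp (measurable_id.prodMk measurable_const)
  have hmY : Measurable (fun v : Om s => YY s lam v (N + k) E) :=
    (YY_meas lam (N + k)).comp (measurable_id.prodMk measurable_const)
  -- the set in the product
  set S : Set (Om s × Om s) := {p | ((TT s lam p.1 E N k) 1 1 * z.2 -
      (TT s lam p.1 E N k) 0 1 * ((YY s lam p.2 (N + k) E)⁻¹ * z.2 - z.1)) ^ 2 +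
      ((TT s lam p.1 E N k) 0 0 * ((YY s lam p.2 (N + k) E)⁻¹ * z.2 - z.1) -
        (TT s lam p.1 E N k) 1 0 * z.2) ^ 2 ≤ 1} with hS
  have hSm : MeasurableSet S := by
    have a11 : Measurable (fun p : Om s × Om s => TT s lam p.1 E N k 1 1) :=
      (hmT k 1 1).comp measurable_fst
    have a01 : Measurable (fun p : Om s × Om s => TT s lam p.1 E N k 0 1) :=
      (hmT k 0 1).comp measurable_fst
    have a00 : Measurable (fun p : Om s × Om s => TT s lam p.1 E N k 0 0) :=
      (hmT k 0 0).comp measurable_fst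
    have a10 : Measurable (fun p : Om s × Om s => TT s lam p.1 E N k 1 0) :=
      (hmT k 1 0).comp measurable_fst
    have hY : Measurable (fun p : Om s × Om s => (YY s lam p.2 (N + k) E)⁻¹) :=
      (hmY.comp measurable_snd).inv
    apply measurableSet_le _ measurable_const
    exact ((a11.mul_const _).sub (a01.mul ((hY.mul_const _).sub_const _))).pow_const 2 |>.add
      (((a00.mul ((hY.mul_const _).sub_const _)).sub (a10.mul_const _)).pow_const 2)
  have hset : MeasurableSet {v : Om s | ((TT s lam v E N (k + 1)) 1 1 * z.1 -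
      (TT s lam v E N (k + 1)) 0 1 * z.2) ^ 2 +
      ((TT s lam v E N (k + 1)) 0 0 * z.2 - (TT s lam v E N (k + 1)) 1 0 * z.1) ^ 2 ≤ 1} := by
    apply measurableSet_le _ measurable_const
    exact ((((hmT (k + 1) 1 1).mul_const _).sub ((hmT (k + 1) 0 1).mul_const _)).pow_const 2).add
      ((((hmT (k + 1) 0 0).mul_const _).sub ((hmT (k + 1) 1 0).mul_const _)).pow_const 2)
  have hmp := u0 P (N + k)
  have hpre : (fun p : Om s × Om s => comb s (N + k) p.1 p.2) ⁻¹'
      {v : Om s | ((TT s lam v E N (k + 1)) 1 1 * z.1 -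
      (TT s lam v E N (k + 1)) 0 1 * z.2) ^ 2 +
      ((TT s lam v E N (k + 1)) 0 0 * z.2 - (TT s lam v E N (k + 1)) 1 0 * z.1) ^ 2 ≤ 1} = S := by
    ext p
    have hT : TT s lam (comb s (N + k) p.1 p.2) E N k = TT s lam p.1 E N k := by
      apply TT_congr
      intro x _ hx
      simp only [comb, if_pos hx]
    have hY : YY s lam (comb s (N + k) p.1 p.2) (N + k) E = YY s lam p.2 (N + k) E := by
      apply YY_congr
      intro i
      simp only [comb, lt_irrefl, if_false]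
    simp only [Set.mem_preimage, Set.mem_ofPred_eq, hS, TT, hT, hY]
    have e11 : (Mh (YY s lam p.2 (N + k) E)⁻¹ * TT s lam p.1 E N k) 1 1 =
        (TT s lam p.1 E N k) 0 1 := by
      simp [Mh, Matrix.mul_apply, Fin.sum_univ_two]
    have e10 : (Mh (YY s lam p.2 (N + k) E)⁻¹ * TT s lam p.1 E N k) 1 0 =
        (TT s lam p.1 E N k) 0 0 := by
      simp [Mh, Matrix.mul_apply, Fin.sum_univ_two]
    have e01 : (Mh (YY s lam p.2 (N + k) E)⁻¹ * TT s lam p.1 E N k) 0 1 =
        (YY s lam p.2 (N + k) E)⁻¹ * (TT s lam p.1 E N k) 0 1 - (TT s lam p.1 E N k) 1 1 := by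
      simp [Mh, Matrix.mul_apply, Fin.sum_univ_two]
      ring
    have e00 : (Mh (YY s lam p.2 (N + k) E)⁻¹ * TT s lam p.1 E N k) 0 0 =
        (YY s lam p.2 (N + k) E)⁻¹ * (TT s lam p.1 E N k) 0 0 - (TT s lam p.1 E N k) 1 0 := by
      simp [Mh, Matrix.mul_apply, Fin.sum_univ_two]
      ring
    rw [e11, e10, e01, e00]
    have e : (TT s lam p.1 E N k 0 1 * z.1 -
        ((YY s lam p.2 (N + k) E)⁻¹ * TT s lam p.1 E N k 0 1 - TT s lam p.1 E N k 1 1) * z.2) ^ 2 +
      (((YY s lam p.2 (N + k) E)⁻¹ * TT s lam p.1 E N k 0 0 - TT s lam p.1 E N k 1 0) * z.2 -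
        TT s lam p.1 E N k 0 0 * z.1) ^ 2 =
      (TT s lam p.1 E N k 1 1 * z.2 -
        TT s lam p.1 E N k 0 1 * ((YY s lam p.2 (N + k) E)⁻¹ * z.2 - z.1)) ^ 2 +
      (TT s lam p.1 E N k 0 0 * ((YY s lam p.2 (N + k) E)⁻¹ * z.2 - z.1) -
        TT s lam p.1 E N k 1 0 * z.2) ^ 2 := by ring
    rw [e]
  have h1 : fq lam P E N (k + 1) z = ((Q.prod Q) S).toReal := by
    unfold fq
    rw [← hPdef, Measure.real, ← hmp.measure_preimage hset.nullMeasurableSet, hpre]
  rw [h1, Measure.prod_apply_symm hSm]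
  rw [← integral_toReal]
  · rfl
  · exact (measurable_measure_prodMk_right hSm).aemeasurable
  · filter_upwards with v
    exact measure_lt_top _ _

lemma slice_meas (F : ℝ → ℝ × ℝ → ℝ) (h : Measurable (fun p : ℝ × (ℝ × ℝ) => F p.1 p.2))
    (E : ℝ) : Measurable (F E) := by
  have h2 : Measurable (fun z : ℝ × ℝ => (E, z)) := measurable_const.prodMk measurable_id
  exact h.comp h2

lemma u8b_aux (lam : ℝ) (P : Vtx s → Measure ℝ) [∀ x, IsProbabilityMeasure (P x)] (E : ℝ) (N k : ℕ)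
    (hfm : Measurable (fq lam P E N k))
    (hf01 : ∀ z, 0 ≤ fq lam P E N k z ∧ fq lam P E N k z ≤ 1)
    (hf4 : ∫⁻ z, ENNReal.ofReal (fq lam P E N k z) ≤ ENNReal.ofReal 4) :
    (1 / 2) * ∫ p : Om s × Om s, (∫ z : ℝ × ℝ, (fq lam P E N k (z.1, -z.2) -
      fq lam P E N k (z.1, -(z.2 + ((YY s lam p.1 (N + k) E)⁻¹ -
        (YY s lam p.2 (N + k) E)⁻¹) * z.1))) ^ 2) ∂((PQ P).prod (PQ P)) ≤
    (∫ z : ℝ × ℝ, fq lam P E N k z ^ 2) - ∫ z : ℝ × ℝ, fq lam P E N (k + 1) z ^ 2 := by
  have hhm : Measurable (fun v : Om s => (YY s lam v (N + k) E)⁻¹) :=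
    ((YY_meas lam (N + k)).comp (measurable_id.prodMk measurable_const)).inv
  have := Pool.Agent.H220R3.AT.energy (PQ P) (fq lam P E N k) (fq lam P E N (k + 1))
    (fun v => (YY s lam v (N + k) E)⁻¹) hhm hfm hf01 hf4 (fq_succ lam P E N k)
  exact this

theorem u8b (lam : ℝ) (P : Vtx s → Measure ℝ) [∀ x, IsProbabilityMeasure (P x)] (E : ℝ) (N k : ℕ) :
    (1 / 2) * ∫ p : Om s × Om s, (∫ z : ℝ × ℝ, (fq lam P E N k (z.1, -z.2) -
      fq lam P E N k (z.1, -(z.2 + ((YY s lam p.1 (N + k) E)⁻¹ -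
        (YY s lam p.2 (N + k) E)⁻¹) * z.1))) ^ 2) ∂((PQ P).prod (PQ P)) ≤
    (∫ z : ℝ × ℝ, fq lam P E N k z ^ 2) - ∫ z : ℝ × ℝ, fq lam P E N (k + 1) z ^ 2 := by
  have h1 := u8a lam P N k
  exact u8b_aux lam P E N k (slice_meas (fun E => fq lam P E N k) h1.1 E)
    (h1.2 E).1 (h1.2 E).2.1

end Pool.Agent.Y663.SH
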