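import Pool.Agent.H508R3.AT.Stmts

/-!
Independent potentials on antitrees: definitions and statements.

The potential at the vertex `x` has the law `P x`; nothing is assumed to be identically distributed.
-/

set_option autoImplicit false

namespace Pool.Agent.Y663.SH

open MeasureTheory Filter Topology Set Matrix
open Pool.Agent.H695R3.AT
open Pool.Agent.H508R3.AT
open Pool.Agent.H508R3.SC (M2 ns)

variable {s : ℕ → ℕ}

/-- the law of the independent potential -/
noncomputable def PQ (P : Vtx s → Measure ℝ) : Measure (Om s) := Measure.infinitePi P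

instance {P : Vtx s → Measure ℝ} [∀ x, IsProbabilityMeasure (P x)] :
    IsProbabilityMeasure (PQ P) := by
  unfold PQ; infer_instance

/-- the density of the image of the unit disc under the random transfer matrix -/
noncomputable def fq (lam : ℝ) (P : Vtx s → Measure ℝ) (E : ℝ) (N k : ℕ) (z : ℝ × ℝ) : ℝ :=
  (PQ P).real {v | ((TT s lam v E N k) 1 1 * z.1 - (TT s lam v E N k) 0 1 * z.2) ^ 2 +
    ((TT s lam v E N k) 0 0 * z.2 - (TT s lam v E N k) 1 0 * z.1) ^ 2 ≤ 1}

/-- uniform non-degeneracy at the scales `σ x`: supports in `[-L, L]`, and no interval of length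
`2 σ x` carries more than `1 - κ` of the mass of `P x` -/
structure GoodFam (P : Vtx s → Measure ℝ) (σ : Vtx s → ℝ) (L κ : ℝ) : Prop where
  prob : ∀ x, IsProbabilityMeasure (P x)
  L0 : 0 < L
  κ0 : 0 < κ
  supp : ∀ x, P x (Icc (-L) L)ᶜ = 0
  σ0 : ∀ x, 0 ≤ σ x
  conc : ∀ x c, P x {t | |t - c| < σ x} ≤ ENNReal.ofReal (1 - κ)

/-- the variance of the shell average -/
noncomputable def VV (σ : Vtx s → ℝ) (n : ℕ) : ℝ := (∑ i : Fin (s n), σ ⟨n, i⟩ ^ 2) / (s n : ℝ) ^ 2

lemma VV_nonneg (σ : Vtx s → ℝ) (n : ℕ) : 0 ≤ VV σ n := by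
  unfold VV; positivity

end Pool.Agent.Y663.SH
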