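import Pool.Agent.H941R3.AT.T9a
import Pool.Agent.Y663.SH.Defs

/-! Anticoncentration of the shell averages, for non-identically distributed potentials. -/

set_option autoImplicit false

namespace Pool.Agent.Y663.SH

open MeasureTheory Filter Topology Set ProbabilityTheory
open Pool.Agent.H508R3.AT Pool.Agent.H695R3.AT
open Pool.Agent.H941R3.AT (Dl charFun_Dl sinc_bound tail_of_charFun inv_diff)

variable {s : ℕ → ℕ}

lemma GoodFam.σ_le {P : Vtx s → Measure ℝ} {σ : Vtx s → ℝ} {L κ : ℝ} (h : GoodFam P σ L κ)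
    (x : Vtx s) : σ x ≤ L := by
  by_contra hc
  push Not at hc
  have hP := h.prob x
  have h1 : P x (Icc (-L) L) = 1 := (prob_compl_eq_zero_iff measurableSet_Icc).mp (h.supp x)
  have h2 : P x (Icc (-L) L) ≤ ENNReal.ofReal (1 - κ) := by
    refine (measure_mono ?_).trans (h.conc x 0)
    intro t ht
    simp only [mem_ofPred_eq, sub_zero]
    exact (abs_le.mpr ht).trans_lt hc
  rw [h1, ← ENNReal.ofReal_one] at h2
  have h3 : ENNReal.ofReal (1 - κ) < ENNReal.ofReal 1 := by
    rw [ENNReal.ofReal_lt_ofReal_iff (by norm_num)]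
    linarith [h.κ0]
  exact absurd h2 (not_le.mpr h3)

lemma GoodFam.VV_le {P : Vtx s → Measure ℝ} {σ : Vtx s → ℝ} {L κ : ℝ} (h : GoodFam P σ L κ)
    (n : ℕ) (hn : 0 < s n) : VV σ n ≤ L ^ 2 := by
  unfold VV
  have hsn : (1 : ℝ) ≤ s n := by exact_mod_cast hn
  rw [div_le_iff₀ (by positivity)]
  calc ∑ i : Fin (s n), σ ⟨n, i⟩ ^ 2 ≤ ∑ _i : Fin (s n), L ^ 2 := by
        apply Finset.sum_le_sum
        intro i _
        exact pow_le_pow_left₀ (h.σ0 _) (h.σ_le _) 2
    _ = s n * L ^ 2 := by simp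
    _ ≤ L ^ 2 * (s n : ℝ) ^ 2 := by nlinarith [sq_nonneg L, mul_nonneg (sq_nonneg L) (sub_nonneg.2 hsn)]

/-- the integral of a characteristic function -/
lemma freq_int {ζ : Measure ℝ} [IsProbabilityMeasure ζ] {c : ℝ → ℝ}
    (hc : ∀ t, charFun ζ t = (c t : ℂ)) {e p r : ℝ} (he0 : 0 ≤ e) (hp : 0 < p)
    (hm : p ≤ ζ.real {z | e ≤ |z|}) (hr0 : 0 < r) (hr1 : r * e ≤ 1) :
    IntervalIntegrable c volume (-r) r ∧
      (∫ t in -r..r, c t) ≤ 2 * r * (1 - p * (r * e) ^ 2 / 20) := by
  have h1 := integral_charFun_Icc (μ := ζ) hr0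
  simp_rw [hc] at h1
  rw [intervalIntegral.integral_ofReal] at h1
  have h2 : ∫ t in -r..r, c t = 2 * r * ∫ x, Real.sinc (r * x) ∂ζ := by
    rw [← Complex.ofReal_inj, h1]
    push_cast
    rfl
  have hcint : IntervalIntegrable c volume (-r) r := by
    have h3 : IntervalIntegrable (charFun ζ) volume (-r) r := intervalIntegrable_charFun
    have h4 : c = fun t => (charFun ζ t).re := by
      ext t; rw [hc]; simp
    rw [h4]
    exact ⟨h3.1.re, h3.2.re⟩
  refine ⟨hcint, ?_⟩
  have hint : Integrable (fun x => Real.sinc (r * x)) ζ := by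
    refine Integrable.of_bound (C := 1) ?_ ?_
    · exact (Real.continuous_sinc.comp (by fun_prop)).aestronglyMeasurable
    · exact Eventually.of_forall (fun x => by rw [Real.norm_eq_abs]; exact Real.abs_sinc_le_one _)
  have hmeas : MeasurableSet {z : ℝ | e ≤ |z|} := measurableSet_le measurable_const (by fun_prop)
  have h7 : ∫ x, Real.sinc (r * x) ∂ζ ≤
      ∫ x, (1 - {z : ℝ | e ≤ |z|}.indicator (fun _ => (r * e) ^ 2 / 20) x) ∂ζ := by
    refine integral_mono hint ?_ (fun x => ?_)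
    · exact (integrable_const _).sub ((integrable_const _).indicator hmeas)
    · by_cases hx : x ∈ {z : ℝ | e ≤ |z|}
      · simp only [indicator_of_mem hx]
        refine sinc_bound (by positivity) hr1 ?_
        rw [abs_mul, abs_of_pos hr0]
        exact mul_le_mul_of_nonneg_left hx hr0.le
      · simp only [indicator_of_notMem hx, sub_zero]
        exact Real.sinc_le_one _
  rw [integral_sub (integrable_const _) ((integrable_const _).indicator hmeas),
    integral_indicator hmeas] at h7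
  simp only [integral_const, MeasurableSet.univ, measureReal_restrict_apply, univ_inter,
    smul_eq_mul, probReal_univ, one_mul] at h7
  have h8 : p * ((r * e) ^ 2 / 20) ≤ ζ.real {z | e ≤ |z|} * ((r * e) ^ 2 / 20) := by gcongr
  rw [h2]
  gcongr
  linarith

/-- choice of the frequency -/
lemma exists_freq' {m : ℕ} {ζ : Fin m → Measure ℝ} [∀ i, IsProbabilityMeasure (ζ i)]
    {c : Fin m → ℝ → ℝ} (hc : ∀ i t, charFun (ζ i) t = (c i t : ℂ)) {e : Fin m → ℝ} {p r : ℝ}
    (he0 : ∀ i, 0 ≤ e i) (hp : 0 < p) (hm : ∀ i, p ≤ (ζ i).real {z | e i ≤ |z|}) (hr0 : 0 < r)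
    (hr : r ^ 2 * ∑ i, e i ^ 2 = 1) :
    ∃ t : ℝ, |t| ≤ r ∧ ∑ i, (c i t - 1) ≤ -(p / 40) := by
  have hr1 : ∀ i, r * e i ≤ 1 := by
    intro i
    have h1 : (r * e i) ^ 2 ≤ 1 := by
      rw [← hr, mul_pow]
      gcongr
      exact Finset.single_le_sum (f := fun i => e i ^ 2) (fun j _ => sq_nonneg _) (Finset.mem_univ i)
    have h2 : 0 ≤ r * e i := mul_nonneg hr0.le (he0 i)
    nlinarith
  by_contra hcon
  push Not at hcon
  have hI : ∀ i, IntervalIntegrable (c i) volume (-r) r := fun i =>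
    (freq_int (hc i) (he0 i) hp (hm i) hr0 (hr1 i)).1
  have hI1 : ∀ i ∈ (Finset.univ : Finset (Fin m)),
      IntervalIntegrable (fun t => c i t - 1) volume (-r) r := fun i _ =>
    (hI i).sub intervalIntegrable_const
  have h5 : (2 * r) * (-(p / 40)) ≤ ∫ t in -r..r, ∑ i, (c i t - 1) := by
    have h6 : ∫ _t in -r..r, (-(p / 40)) = (2 * r) * (-(p / 40)) := by
      rw [intervalIntegral.integral_const, smul_eq_mul]; ring
    rw [← h6]
    have hsumI : IntervalIntegrable (fun t => ∑ i, (c i t - 1)) volume (-r) r := by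
      have h := IntervalIntegrable.sum (Finset.univ : Finset (Fin m)) hI1
      have e1 : (∑ i, fun t => c i t - 1) = fun t => ∑ i, (c i t - 1) := by
        funext t
        simp
      rwa [e1] at h
    refine intervalIntegral.integral_mono_on (by linarith) (by simp) hsumI (fun t ht => ?_)
    exact (hcon t (abs_le.mpr ⟨ht.1, ht.2⟩)).le
  rw [intervalIntegral.integral_finsetSum hI1] at h5
  have h6 : ∀ i, ∫ t in -r..r, (c i t - 1) ≤ 2 * r * (-(p * (r * e i) ^ 2 / 20)) := by
    intro i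
    rw [intervalIntegral.integral_sub (hI i) intervalIntegrable_const,
      intervalIntegral.integral_const, smul_eq_mul]
    have := (freq_int (hc i) (he0 i) hp (hm i) hr0 (hr1 i)).2
    linarith
  have h7 : ∑ i, ∫ t in -r..r, (c i t - 1) ≤ ∑ i, 2 * r * (-(p * (r * e i) ^ 2 / 20)) :=
    Finset.sum_le_sum (fun i _ => h6 i)
  have h8 : ∑ i, 2 * r * (-(p * (r * e i) ^ 2 / 20)) = 2 * r * (-(p / 20)) := by
    rw [← Finset.mul_sum]
    congr 1
    rw [Finset.sum_neg_distrib]
    congr 1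
    rw [← Finset.sum_div, ← Finset.mul_sum]
    have : ∑ i, (r * e i) ^ 2 = 1 := by
      rw [← hr, Finset.mul_sum]
      exact Finset.sum_congr rfl fun i _ => by ring
    rw [this, mul_one]
  rw [h8] at h7
  have h9 := h5.trans h7
  nlinarith

theorem u9a (L κ a b : ℝ) (hL : 0 < L) (hκ : 0 < κ) : ∃ c₂ c₃ : ℝ, 0 < c₂ ∧ 0 < c₃ ∧
    ∀ (s : ℕ → ℕ), (∀ n, 0 < s n) → ∀ (P : Vtx s → Measure ℝ) (σ : Vtx s → ℝ), GoodFam P σ L κ →
    ∀ (n : ℕ) (E : ℝ), E ∈ Icc a b → ENNReal.ofReal c₃ ≤ ((PQ P).prod (PQ P))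
      {p | c₂ * √(VV σ n) ≤ |YY s 1 p.1 n E - YY s 1 p.2 n E|} := by
  set B : ℝ := max |a| |b| + L with hB
  have hBpos : 0 < B := by
    have : 0 ≤ max |a| |b| := le_trans (abs_nonneg a) (le_max_left _ _)
    linarith
  set c₀ : ℝ := min (1 / B ^ 2) (1 / (B * L)) with hc₀
  have hc₀0 : 0 < c₀ := by positivity
  set p : ℝ := min κ 1 with hp
  have hp0 : 0 < p := lt_min hκ one_pos
  set q : ℝ := 1 - Real.exp (-(p / 40)) with hq
  have hq0 : 0 < q := by
    have : Real.exp (-(p / 40)) < 1 := by rw [Real.exp_lt_one_iff]; linarith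
    linarith
  have hq1 : q ≤ 1 := by
    have := Real.exp_pos (-(p / 40))
    linarith
  refine ⟨√q * c₀, q / 4, by positivity, by positivity, ?_⟩
  intro s hs P σ hG n E hE
  have hP := hG.prob
  rcases (VV_nonneg σ n).eq_or_lt with hV | hV
  · rw [← hV]
    have : {p : Om s × Om s | √q * c₀ * √0 ≤ |YY s 1 p.1 n E - YY s 1 p.2 n E|} = univ := by
      ext p
      simp
    rw [this, measure_univ, ← ENNReal.ofReal_one]
    exact ENNReal.ofReal_le_ofReal (by linarith)
  set m : ℕ := s n with hm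
  have hm0 : 0 < m := hs n
  have hm1 : (1 : ℝ) ≤ m := by exact_mod_cast hm0
  have hmpos : (0 : ℝ) < m := by linarith
  set W : ℝ := ∑ i : Fin (s n), σ ⟨n, i⟩ ^ 2 with hW
  have hVW : VV σ n = W / (m : ℝ) ^ 2 := rfl
  have hW0 : 0 < W := by
    rw [hVW] at hV
    have := mul_pos hV (show (0 : ℝ) < (m : ℝ) ^ 2 by positivity)
    rwa [div_mul_cancel₀ _ (by positivity)] at this
  set g : ℝ → ℝ := fun x => (E - 1 * x)⁻¹ with hg
  have hgm : Measurable g := by fun_prop
  set μX : Fin (s n) → Measure ℝ := fun i => (P ⟨n, i⟩).map g with hμX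
  haveI hμXp : ∀ i, IsProbabilityMeasure (μX i) := fun i =>
    Measure.isProbabilityMeasure_map hgm.aemeasurable
  -- the sum
  set T : Om s → ℝ := fun v => ∑ i : Fin (s n), g (v ⟨n, i⟩) with hT
  have hTm : Measurable T := by fun_prop
  set μT : Measure ℝ := (PQ P).map T with hμT
  haveI : IsProbabilityMeasure μT := Measure.isProbabilityMeasure_map hTm.aemeasurable
  have hcfT : ∀ t, charFun μT t = ∏ i : Fin (s n), charFun (μX i) t := by
    intro t
    have hind : iIndepFun (fun (x : Vtx s) (ω : Om s) => g (ω x)) (PQ P) :=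
      iIndepFun_infinitePi (P := P) (X := fun _ : Vtx s => g) (fun _ => hgm)
    have hind2 : iIndepFun (fun (i : Fin (s n)) (ω : Om s) => g (ω ⟨n, i⟩)) (PQ P) := by
      refine hind.precomp (g := fun i : Fin (s n) => (⟨n, i⟩ : Vtx s)) ?_
      intro i j hij
      simpa using hij
    have h1 := hind2.charFun_map_fun_sum_eq_prod
      (fun i => (by fun_prop : Measurable (fun ω : Om s => g (ω ⟨n, i⟩))).aemeasurable)
    rw [hμT, hT, h1, Finset.prod_apply]
    apply Finset.prod_congr rfl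
    intro i _
    have h3 : (PQ P).map (fun ω : Om s => g (ω ⟨n, i⟩)) = μX i := by
      have h4 : (PQ P).map (fun ω : Om s => ω ⟨n, i⟩) = P ⟨n, i⟩ := by
        unfold PQ
        exact Measure.infinitePi_map_eval P ⟨n, i⟩
      simp only [hμX]
      rw [← h4, Measure.map_map hgm (by fun_prop)]
      rfl
    rw [h3]
  -- lower bound for the differences of the summands
  have hζ : ∀ i, p ≤ (Dl (μX i)).real {z | c₀ * σ ⟨n, i⟩ ≤ |z|} := by
    intro i
    have hmeas : MeasurableSet {z : ℝ | c₀ * σ ⟨n, i⟩ ≤ |z|} :=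
      measurableSet_le measurable_const (by fun_prop)
    have h1 : Dl (μX i) = ((P ⟨n, i⟩).prod (P ⟨n, i⟩)).map (fun x => g x.1 - g x.2) := by
      unfold Dl
      simp only [hμX]
      rw [Measure.map_prod_map (P ⟨n, i⟩) (P ⟨n, i⟩) hgm hgm,
        Measure.map_map (by fun_prop) (by fun_prop)]
      rfl
    rw [h1, map_measureReal_apply (by fun_prop) hmeas]
    set μ := P ⟨n, i⟩ with hμ
    haveI : IsProbabilityMeasure μ := hP _
    have hms : MeasurableSet {x : ℝ × ℝ | σ ⟨n, i⟩ ≤ |x.1 - x.2|} :=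
      measurableSet_le measurable_const (by fun_prop)
    have hpm : ENNReal.ofReal p ≤ (μ.prod μ) {x : ℝ × ℝ | σ ⟨n, i⟩ ≤ |x.1 - x.2|} := by
      rw [Measure.prod_apply_symm hms]
      have h2 : ∀ y : ℝ, ENNReal.ofReal p ≤
          μ ((fun x => (x, y)) ⁻¹' {x : ℝ × ℝ | σ ⟨n, i⟩ ≤ |x.1 - x.2|}) := by
        intro y
        have h3 := hG.conc ⟨n, i⟩ y
        rw [← hμ] at h3
        have h4 : ((fun x => (x, y)) ⁻¹' {x : ℝ × ℝ | σ ⟨n, i⟩ ≤ |x.1 - x.2|}) =
            {t : ℝ | |t - y| < σ ⟨n, i⟩}ᶜ := by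
          ext t
          simp
        have hmt : MeasurableSet {t : ℝ | |t - y| < σ ⟨n, i⟩} :=
          measurableSet_lt (by fun_prop) measurable_const
        rw [h4, prob_compl_eq_one_sub hmt]
        refine ENNReal.le_sub_of_add_le_left (measure_ne_top _ _) ?_
        rcases le_total κ 1 with hk | hk
        · calc μ {t | |t - y| < σ ⟨n, i⟩} + ENNReal.ofReal p
              ≤ ENNReal.ofReal (1 - κ) + ENNReal.ofReal κ :=
                add_le_add h3 (ENNReal.ofReal_le_ofReal (min_le_left _ _))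
            _ = 1 := by
                rw [← ENNReal.ofReal_add (by linarith) hκ.le]
                simp
        · have h5 : ENNReal.ofReal (1 - κ) = 0 := ENNReal.ofReal_of_nonpos (by linarith)
          rw [h5] at h3
          rw [nonpos_iff_eq_zero.mp h3, zero_add, ← ENNReal.ofReal_one]
          exact ENNReal.ofReal_le_ofReal (min_le_right _ _)
      calc ENNReal.ofReal p = ∫⁻ _y, ENNReal.ofReal p ∂μ := by simp
        _ ≤ _ := lintegral_mono h2
    have hpm' : p ≤ (μ.prod μ).real {x : ℝ × ℝ | σ ⟨n, i⟩ ≤ |x.1 - x.2|} := by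
      rw [measureReal_def, ← ENNReal.ofReal_le_iff_le_toReal (measure_ne_top _ _)]
      exact hpm
    refine hpm'.trans ?_
    have hae : ∀ᵐ x ∂(μ.prod μ), x.1 ∈ Icc (-L) L ∧ x.2 ∈ Icc (-L) L := by
      have h2 : ∀ᵐ x ∂μ, x ∈ Icc (-L) L := by
        rw [ae_iff]; exact hG.supp _
      have h3 : ∀ᵐ x ∂(μ.prod μ), x.1 ∈ Icc (-L) L :=
        Measure.quasiMeasurePreserving_fst.ae h2
      have h4 : ∀ᵐ x ∂(μ.prod μ), x.2 ∈ Icc (-L) L :=
        Measure.quasiMeasurePreserving_snd.ae h2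
      filter_upwards [h3, h4] with x h5 h6 using ⟨h5, h6⟩
    rw [measureReal_def, measureReal_def]
    refine ENNReal.toReal_mono (measure_ne_top _ _) (measure_mono_ae ?_)
    filter_upwards [hae] with x hx hxη
    have hbd : ∀ y ∈ Icc (-L) L, |E - 1 * y| ≤ B := by
      intro y hy
      have h5 : |E| ≤ max |a| |b| := abs_le_max_abs_abs hE.1 hE.2
      have h6 : |1 * y| ≤ L := by
        rw [one_mul]
        exact abs_le.mpr hy
      calc |E - 1 * y| ≤ |E| + |1 * y| := abs_sub _ _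
        _ ≤ B := by rw [hB]; linarith
    rcases (hG.σ0 ⟨n, i⟩).eq_or_lt with h0 | h0
    · change c₀ * σ ⟨n, i⟩ ≤ |g x.1 - g x.2|
      rw [← h0, mul_zero]
      exact abs_nonneg _
    · refine le_trans ?_ (inv_diff hBpos one_pos h0 (hbd _ hx.1) (hbd _ hx.2) hxη)
      apply le_min
      · rw [one_mul, mul_comm, div_eq_mul_one_div]
        exact mul_le_mul_of_nonneg_left (min_le_left _ _) h0.le
      · calc c₀ * σ ⟨n, i⟩ ≤ 1 / (B * L) * L :=
              mul_le_mul (min_le_right _ _) (hG.σ_le _) h0.le (by positivity)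
          _ = 1 / B := by field_simp
  set r : ℝ := 1 / (c₀ * √W) with hr
  have hr0 : 0 < r := by positivity
  have hrW : r ^ 2 * ∑ i : Fin (s n), (c₀ * σ ⟨n, i⟩) ^ 2 = 1 := by
    have h1 : ∑ i : Fin (s n), (c₀ * σ ⟨n, i⟩) ^ 2 = c₀ ^ 2 * W := by
      rw [hW, Finset.mul_sum]
      exact Finset.sum_congr rfl fun i _ => by ring
    rw [h1, hr, div_pow, mul_pow, Real.sq_sqrt hW0.le]
    field_simp
  obtain ⟨t, ht, hct⟩ := exists_freq' (ζ := fun i => Dl (μX i))
    (c := fun i t => ‖charFun (μX i) t‖ ^ 2) (fun i => charFun_Dl (μX i))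
    (fun i => mul_nonneg hc₀0.le (hG.σ0 _)) hp0 hζ hr0 hrW
  -- the difference of the sums
  have hfin : q / 4 ≤ (Dl μT).real {z | √q / r ≤ |z|} := by
    refine tail_of_charFun (t := t) (charFun_Dl μT t) ?_ (by positivity) ?_
    · rw [hcfT, norm_prod, ← Finset.prod_pow]
      calc ∏ i : Fin (s n), ‖charFun (μX i) t‖ ^ 2
          ≤ ∏ i : Fin (s n), Real.exp (‖charFun (μX i) t‖ ^ 2 - 1) := by
            apply Finset.prod_le_prod (fun i _ => by positivity)
            intro i _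
            have := Real.add_one_le_exp (‖charFun (μX i) t‖ ^ 2 - 1)
            linarith
        _ = Real.exp (∑ i : Fin (s n), (‖charFun (μX i) t‖ ^ 2 - 1)) := (Real.exp_sum _ _).symm
        _ ≤ Real.exp (-(p / 40)) := Real.exp_le_exp.mpr hct
        _ = 1 - q := by rw [hq]; ring
    · have h1 : (t * (√q / r)) ^ 2 = q * (t ^ 2 / r ^ 2) := by
        rw [mul_pow, div_pow, Real.sq_sqrt hq0.le]; ring
      rw [h1]
      have h2 : t ^ 2 ≤ r ^ 2 := by
        rw [← sq_abs t]
        gcongr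
      have h3 : t ^ 2 / r ^ 2 ≤ 1 := by
        rw [div_le_one (by positivity)]
        exact h2
      nlinarith
  have hmeas : MeasurableSet {z : ℝ | √q / r ≤ |z|} :=
    measurableSet_le measurable_const (by fun_prop)
  have h1 : Dl μT = ((PQ P).prod (PQ P)).map (fun x => T x.1 - T x.2) := by
    unfold Dl
    rw [hμT, Measure.map_prod_map (PQ P) (PQ P) hTm hTm,
      Measure.map_map (by fun_prop) (by fun_prop)]
    rfl
  rw [h1, map_measureReal_apply (by fun_prop) hmeas, measureReal_def] at hfin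
  rw [← ENNReal.ofReal_toReal (measure_ne_top ((PQ P).prod (PQ P)) _)]
  refine ENNReal.ofReal_le_ofReal (hfin.trans ?_)
  refine ENNReal.toReal_mono (measure_ne_top _ _) (measure_mono ?_)
  intro x hx
  simp only [mem_preimage, mem_ofPred_eq] at hx ⊢
  have hY : YY s 1 x.1 n E - YY s 1 x.2 n E = (T x.1 - T x.2) / m := by
    simp only [YY, hT, hg]
    rw [sub_div]
  rw [hY, abs_div, abs_of_pos hmpos, le_div_iff₀ hmpos, hVW, Real.sqrt_div hW0.le,
    Real.sqrt_sq hmpos.le]
  calc √q * c₀ * (√W / m) * m = √q / r := by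
        rw [hr]
        field_simp
    _ ≤ |T x.1 - T x.2| := hx

end Pool.Agent.Y663.SH
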