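import Pool.Agent.H449R3.AT_T9
import Pool.Agent.Y663.SH.U9a

/-! Lower bound for the noise. -/

set_option autoImplicit false

namespace Pool.Agent.Y663.SH

open MeasureTheory Filter Topology Set Matrix
open Pool.Agent.H695R3.AT
open Pool.Agent.H508R3.AT
open Pool.Agent.H449R3.AT (integral_ge)

theorem u9 (h10 : T10) (L κ a b T η : ℝ) (hL : 0 < L) (hκ : 0 < κ) (hT : 0 < T)
    (hη : 0 < η) : ∃ c : ℝ, 0 < c ∧ ∀ (s : ℕ → ℕ), (∀ n, 0 < s n) →
    ∀ (P : Vtx s → Measure ℝ) (σ : Vtx s → ℝ), GoodFam P σ L κ → ∀ (n : ℕ) (G : Set ℝ),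
    MeasurableSet G → G ⊆ Icc a b → ENNReal.ofReal η ≤ volume G →
    ENNReal.ofReal (c * VV σ n) ≤ ∫⁻ E in G, ENNReal.ofReal (∫ p : Om s × Om s,
      sq T ((YY s 1 p.1 n E)⁻¹ - (YY s 1 p.2 n E)⁻¹) ∂((PQ P).prod (PQ P))) := by
  obtain ⟨c₂, c₃, hc2, hc3, H9⟩ := u9a L κ a b hL hκ
  obtain ⟨C, hC, H10⟩ := h10 a b
  set tt : ℝ := 8 * C / (c₃ * η) with htt
  have htt0 : 0 < tt := by positivity
  set x0 : ℝ := c₂ * L / tt ^ 2 with hx0
  have hx00 : 0 < x0 := by positivity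
  refine ⟨(c₂ / tt ^ 2 / (T + x0)) ^ 2 * (c₃ / 2) * (η / 2), by positivity, ?_⟩
  intro s hs P σ hGF n G hG hGab hGη
  have hP := hGF.prob
  rcases (VV_nonneg σ n).eq_or_lt with hV | hV
  · rw [← hV]
    simp
  set μ : Measure (Om s) := PQ P with hμ
  set A : ℝ → ENNReal := fun E => μ {v | tt ≤ |YY s 1 v n E|} with hA
  set S : Set (Om s × ℝ) := {p | tt ≤ |YY s 1 p.1 n p.2|} with hS
  have hSm : MeasurableSet S := by
    have := YY_meas (s := s) 1 n
    exact measurableSet_le measurable_const this.abs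
  have hAm : Measurable A := measurable_measure_prodMk_right hSm
  have hfub : ∫⁻ E in Icc a b, A E ≤ ENNReal.ofReal (C / tt) := by
    have e1 : ∫⁻ E in Icc a b, A E = (μ.prod (volume.restrict (Icc a b))) S := by
      rw [Measure.prod_apply_symm hSm]
      rfl
    rw [e1, Measure.prod_apply hSm]
    calc ∫⁻ v, (volume.restrict (Icc a b)) (Prod.mk v ⁻¹' S) ∂μ
        ≤ ∫⁻ v, ENNReal.ofReal (C / tt) ∂μ := by
          apply lintegral_mono
          intro v
          have hmv : MeasurableSet (Prod.mk v ⁻¹' S) := measurable_prodMk_left hSm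
          simp only
          rw [Measure.restrict_apply hmv]
          refine le_trans (le_of_eq ?_) (H10 (s n) (hs n) (fun i => 1 * v ⟨n, i⟩) tt htt0)
          congr 1
          ext E
          simp only [hS, YY, mem_inter_iff, mem_preimage, mem_ofPred_eq]
          tauto
      _ = ENNReal.ofReal (C / tt) := by simp
  set Bad : Set ℝ := {E | ENNReal.ofReal (c₃ / 4) ≤ A E} with hBad
  have hBadm : MeasurableSet Bad := measurableSet_le measurable_const hAm
  have hbad : (volume.restrict (Icc a b)) Bad ≤ ENNReal.ofReal (η / 2) := by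
    have h1 := meas_ge_le_lintegral_div (μ := volume.restrict (Icc a b)) hAm.aemeasurable
      (ε := ENNReal.ofReal (c₃ / 4)) (by simpa using hc3) ENNReal.ofReal_ne_top
    refine h1.trans ?_
    calc (∫⁻ E in Icc a b, A E) / ENNReal.ofReal (c₃ / 4)
        ≤ ENNReal.ofReal (C / tt) / ENNReal.ofReal (c₃ / 4) := ENNReal.div_le_div_right hfub _
      _ = ENNReal.ofReal (C / tt / (c₃ / 4)) := by
          rw [ENNReal.ofReal_div_of_pos (x := C / tt) (y := c₃ / 4) (by positivity)]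
      _ = ENNReal.ofReal (η / 2) := by
          congr 1
          rw [htt]
          field_simp
          norm_num
  have hGbad : volume (G ∩ Bad) ≤ ENNReal.ofReal (η / 2) := by
    refine le_trans ?_ hbad
    rw [Measure.restrict_apply hBadm]
    apply measure_mono
    intro E hE
    exact ⟨hE.2, hGab hE.1⟩
  have hgood : ENNReal.ofReal (η / 2) ≤ volume (G \ Bad) := by
    have h1 : volume G ≤ volume (G ∩ Bad) + volume (G \ Bad) := by
      rw [measure_inter_add_sdiff G hBadm]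
    have h2 : ENNReal.ofReal (η / 2) + ENNReal.ofReal (η / 2) = ENNReal.ofReal η := by
      rw [← ENNReal.ofReal_add (by positivity) (by positivity)]
      congr 1
      ring
    have h3 : ENNReal.ofReal (η / 2) + ENNReal.ofReal (η / 2) ≤
        ENNReal.ofReal (η / 2) + volume (G \ Bad) := by
      rw [h2]
      refine hGη.trans (h1.trans ?_)
      gcongr
    exact (ENNReal.add_le_add_iff_left ENNReal.ofReal_ne_top).1 h3
  have hsV : 0 < √(VV σ n) := Real.sqrt_pos.mpr hV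
  have hsV2 : √(VV σ n) ≤ L := by
    rw [← Real.sqrt_sq hL.le]
    exact Real.sqrt_le_sqrt (hGF.VV_le n (hs n))
  have hδ : 0 < c₂ * √(VV σ n) := by positivity
  have hxle : c₂ * √(VV σ n) / tt ^ 2 ≤ x0 := by
    rw [hx0]
    gcongr
  have hpt : ∀ E ∈ G \ Bad, ENNReal.ofReal ((c₂ * √(VV σ n) / tt ^ 2 / (T + x0)) ^ 2 * (c₃ / 2)) ≤
      ENNReal.ofReal (∫ p : Om s × Om s,
      sq T ((YY s 1 p.1 n E)⁻¹ - (YY s 1 p.2 n E)⁻¹) ∂(μ.prod μ)) := by
    intro E hE
    apply ENNReal.ofReal_le_ofReal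
    apply integral_ge μ 1 n E c₃ (c₂ * √(VV σ n)) tt T x0 hc3 hδ htt0 hT hxle
      (H9 s hs P σ hGF n E (hGab hE.1))
    exact not_le.1 hE.2
  calc ENNReal.ofReal ((c₂ / tt ^ 2 / (T + x0)) ^ 2 * (c₃ / 2) * (η / 2) * VV σ n)
      = ENNReal.ofReal ((c₂ * √(VV σ n) / tt ^ 2 / (T + x0)) ^ 2 * (c₃ / 2)) *
        ENNReal.ofReal (η / 2) := by
        rw [← ENNReal.ofReal_mul (by positivity)]
        congr 1
        have h5 : √(VV σ n) ^ 2 = VV σ n := Real.sq_sqrt hV.le
        have e : (c₂ * √(VV σ n) / tt ^ 2 / (T + x0)) ^ 2 =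
            (c₂ / tt ^ 2 / (T + x0)) ^ 2 * VV σ n := by
          have e2 : c₂ * √(VV σ n) / tt ^ 2 / (T + x0) =
              c₂ / tt ^ 2 / (T + x0) * √(VV σ n) := by ring
          rw [e2, mul_pow _ (√(VV σ n)), h5]
        rw [e]
        ring
    _ ≤ ENNReal.ofReal ((c₂ * √(VV σ n) / tt ^ 2 / (T + x0)) ^ 2 * (c₃ / 2)) *
        volume (G \ Bad) := by gcongr
    _ = ∫⁻ _ in G \ Bad,
        ENNReal.ofReal ((c₂ * √(VV σ n) / tt ^ 2 / (T + x0)) ^ 2 * (c₃ / 2)) := by
        rw [setLIntegral_const]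
    _ ≤ ∫⁻ E in G \ Bad, ENNReal.ofReal (∫ p : Om s × Om s,
      sq T ((YY s 1 p.1 n E)⁻¹ - (YY s 1 p.2 n E)⁻¹) ∂(μ.prod μ)) :=
        setLIntegral_mono' (hG.diff hBadm) hpt
    _ ≤ _ := lintegral_mono_set sdiff_subset

end Pool.Agent.Y663.SH
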