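import Pool.Agent.H508R3.AT.Asm
import Pool.Agent.Y663.SH.U6
import Pool.Agent.Y663.SH.U8
import Pool.Agent.Y663.SH.U9

/-! Assembly. -/

set_option autoImplicit false

namespace Pool.Agent.Y663.SH

open MeasureTheory Filter Topology Set Matrix
open Pool.Agent.H695R3.AT
open Pool.Agent.H508R3.AT
open Pool.Agent.H508R3.SC (M2 ns)

variable {s : ℕ → ℕ}

/-- mass of the density -/
noncomputable def bq (P : Vtx s → Measure ℝ) (N k : ℕ) (K E : ℝ) : ℝ :=
  (PQ P).real {v | ns (TT s 1 v E N k) ≤ K}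

lemma bq_meas {P : Vtx s → Measure ℝ} [∀ x, IsProbabilityMeasure (P x)] (N k : ℕ) (K : ℝ) :
    Measurable (bq P N k K) := by
  unfold bq Measure.real
  exact (measurable_measure_prodMk_right (nsset_meas (s := s) 1 N k K)).ennreal_toReal

/-- the good energies -/
def Gq (P : Vtx s → Measure ℝ) (N k : ℕ) (K a b : ℝ) : Set ℝ :=
  {E | E ∈ Icc a b ∧ 1 / 8 ≤ bq P N k K E}

lemma Gq_meas {P : Vtx s → Measure ℝ} [∀ x, IsProbabilityMeasure (P x)] (N k : ℕ) (K a b : ℝ) :
    MeasurableSet (Gq P N k K a b) :=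
  measurableSet_Icc.inter (measurableSet_le measurable_const (bq_meas N k K))

lemma Gq_vol {P : Vtx s → Measure ℝ} [∀ x, IsProbabilityMeasure (P x)] (N k : ℕ) (K a b : ℝ)
    (hab : a < b) (h : ENNReal.ofReal ((b - a) / 4) ≤
      ((PQ P).prod volume) {p : Om s × ℝ | p.2 ∈ Icc a b ∧ ns (TT s 1 p.1 p.2 N k) ≤ K}) :
    ENNReal.ofReal ((b - a) / 8) ≤ volume (Gq P N k K a b) := by
  have hm : MeasurableSet {p : Om s × ℝ | p.2 ∈ Icc a b ∧ ns (TT s 1 p.1 p.2 N k) ≤ K} :=
    (measurable_snd measurableSet_Icc).inter (nsset_meas 1 N k K)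
  rw [Measure.prod_apply_symm hm] at h
  have h1 : ∀ E : ℝ, (PQ P) ((fun v => (v, E)) ⁻¹'
      {p : Om s × ℝ | p.2 ∈ Icc a b ∧ ns (TT s 1 p.1 p.2 N k) ≤ K}) ≤
      (Gq P N k K a b).indicator 1 E + (Icc a b).indicator (fun _ => ENNReal.ofReal (1 / 8)) E := by
    intro E
    by_cases hE : E ∈ Icc a b
    · rw [indicator_of_mem hE]
      by_cases hG : E ∈ Gq P N k K a b
      · rw [indicator_of_mem hG]
        exact prob_le_one.trans le_self_add
      · rw [indicator_of_notMem hG, zero_add]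
        have h2 : ¬ (1 / 8 ≤ bq P N k K E) := fun h => hG ⟨hE, h⟩
        have h3 : bq P N k K E ≤ 1 / 8 := (not_le.mp h2).le
        have h4 : ((fun v : Om s => (v, E)) ⁻¹'
            {p : Om s × ℝ | p.2 ∈ Icc a b ∧ ns (TT s 1 p.1 p.2 N k) ≤ K}) ⊆
            {v | ns (TT s 1 v E N k) ≤ K} := fun v hv => hv.2
        refine (measure_mono h4).trans ?_
        rw [← ENNReal.ofReal_toReal (measure_ne_top (PQ P) _)]
        exact ENNReal.ofReal_le_ofReal h3
    · have : ((fun v : Om s => (v, E)) ⁻¹'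
            {p : Om s × ℝ | p.2 ∈ Icc a b ∧ ns (TT s 1 p.1 p.2 N k) ≤ K}) = ∅ := by
        ext v
        simp only [mem_preimage, mem_ofPred_eq, mem_empty_iff_false, iff_false, not_and]
        exact fun h => absurd h hE
      rw [this]
      simp
  have h2 := h.trans (lintegral_mono h1)
  rw [lintegral_add_left (measurable_one.indicator (Gq_meas N k K a b)),
    lintegral_indicator_one (Gq_meas N k K a b), lintegral_indicator_const measurableSet_Icc,
    Real.volume_Icc, ← ENNReal.ofReal_mul (by norm_num)] at h2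
  have h3 : ENNReal.ofReal ((b - a) / 4) = ENNReal.ofReal ((b - a) / 8) +
      ENNReal.ofReal (1 / 8 * (b - a)) := by
    rw [← ENNReal.ofReal_add (by linarith) (by linarith)]
    congr 1
    ring
  rw [h3] at h2
  exact (ENNReal.add_le_add_iff_right ENNReal.ofReal_ne_top).mp h2

/-- the energy -/
noncomputable def Eq' (P : Vtx s → Measure ℝ) (N k : ℕ) (E : ℝ) : ℝ :=
  ∫ z : ℝ × ℝ, fq 1 P E N k z ^ 2

/-- the noise -/
noncomputable def Iq (P : Vtx s → Measure ℝ) (T : ℝ) (n : ℕ) (E : ℝ) : ℝ :=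
  ∫ p : Om s × Om s, sq T ((YY s 1 p.1 n E)⁻¹ - (YY s 1 p.2 n E)⁻¹) ∂((PQ P).prod (PQ P))

lemma Iq_nonneg (P : Vtx s → Measure ℝ) (T : ℝ) (n : ℕ) (E : ℝ) : 0 ≤ Iq P T n E :=
  integral_nonneg fun _ => sq_nonneg' _ _

lemma Eq_anti (P : Vtx s → Measure ℝ) [∀ x, IsProbabilityMeasure (P x)] (N k : ℕ)
    (E : ℝ) : Eq' P N (k + 1) E ≤ Eq' P N k E := by
  have hen := u8b 1 P E N k
  have h0 : 0 ≤ ∫ p : Om s × Om s, (∫ z : ℝ × ℝ, (fq 1 P E N k (z.1, -z.2) -
      fq 1 P E N k (z.1, -(z.2 + ((YY s 1 p.1 (N + k) E)⁻¹ -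
        (YY s 1 p.2 (N + k) E)⁻¹) * z.1))) ^ 2) ∂((PQ P).prod (PQ P)) :=
    integral_nonneg fun p => integral_nonneg fun z => sq_nonneg _
  unfold Eq'
  linarith

/-- one step of the dissipation -/
lemma step (h7 : T7) (K : ℝ) (hK : 0 < K) :
    ∃ d T : ℝ, 0 < d ∧ 0 < T ∧ ∀ (s : ℕ → ℕ) (P : Vtx s → Measure ℝ),
      (∀ x, IsProbabilityMeasure (P x)) → ∀ (N k : ℕ) (a b E : ℝ), E ∈ Gq P N k K a b →
        Eq' P N (k + 1) E + d * Iq P T (N + k) E ≤ Eq' P N k E := by
  obtain ⟨d, T, hd, hT, hsh⟩ := h7 (3 / 8) K (by norm_num) hK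
  refine ⟨d / 2, T, by positivity, hT, ?_⟩
  intro s P hP N k a b E hE
  obtain ⟨hffm, hff⟩ := u8a 1 P N k
  obtain ⟨h01, h4, hmass⟩ := hff E
  have hen := u8b 1 P E N k
  have hfm : Measurable (fq 1 P E N k) := abs_meas (f := fun E z => fq 1 P E N k z) hffm E
  have hτ : Measurable (fun p : Om s × Om s => (YY s 1 p.1 (N + k) E)⁻¹ -
      (YY s 1 p.2 (N + k) E)⁻¹) := by
    have hY := YY_meas_v (s := s) 1 (N + k) E
    exact ((hY.comp measurable_fst).inv).sub ((hY.comp measurable_snd).inv)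
  have hβ : ENNReal.ofReal (3 / 8) ≤
      ∫⁻ z in {z : ℝ × ℝ | z.1 ^ 2 + z.2 ^ 2 ≤ K}, ENNReal.ofReal (fq 1 P E N k z) := by
    refine le_trans ?_ (hmass K hK)
    apply ENNReal.ofReal_le_ofReal
    have := hE.2
    unfold bq at this
    linarith
  have h1 := abs_step hd hsh ((PQ P).prod (PQ P)) (fun p : Om s × Om s =>
    (YY s 1 p.1 (N + k) E)⁻¹ - (YY s 1 p.2 (N + k) E)⁻¹) hτ hfm h01 h4 hβ
  have h2 := mul_le_mul_of_nonneg_left h1 (show (0 : ℝ) ≤ 1 / 2 by norm_num)
  have h3 := h2.trans hen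
  have h4 : d / 2 * Iq P T (N + k) E = 1 / 2 * (d * Iq P T (N + k) E) := by ring
  rw [h4]
  exact le_sub_iff_add_le'.mp h3

lemma Eq_nonneg (P : Vtx s → Measure ℝ) (N k : ℕ) (E : ℝ) : 0 ≤ Eq' P N k E :=
  integral_nonneg fun _ => sq_nonneg _

lemma Eq_le (P : Vtx s → Measure ℝ) [∀ x, IsProbabilityMeasure (P x)] (N k : ℕ)
    (E : ℝ) : Eq' P N k E ≤ 4 := by
  obtain ⟨hffm, hff⟩ := u8a 1 P N k
  obtain ⟨h01, h4, -⟩ := hff E
  have hfm : Measurable (fq 1 P E N k) := abs_meas (f := fun E z => fq 1 P E N k z) hffm E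
  refine le_trans ?_ (int_le hfm h01 h4)
  unfold Eq'
  apply integral_mono_of_nonneg
  · exact Eventually.of_forall fun z => sq_nonneg _
  · exact int_of hfm h01 h4
  · exact Eventually.of_forall fun z => by
      have := h01 z
      simp only
      nlinarith [this.1, this.2]

/-- summation of the dissipation -/
lemma total (h7 : T7) (h10 : T10) (P : Vtx s → Measure ℝ) (σ : Vtx s → ℝ) (L κ : ℝ)
    (hP : GoodFam P σ L κ) (hs : ∀ n, 0 < s n) (a b : ℝ) (hab : a < b) (N : ℕ) (K : ℝ)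
    (hK : 0 < K) (hk : ∀ k : ℕ, ENNReal.ofReal ((b - a) / 4) ≤
      ((PQ P).prod volume) {p : Om s × ℝ | p.2 ∈ Icc a b ∧ ns (TT s 1 p.1 p.2 N k) ≤ K}) :
    Summable (fun n => VV σ n) := by
  have hPv := hP.prob
  obtain ⟨d, T, hd, hT, hstep⟩ := step h7 K hK
  obtain ⟨c, hc, hnoise⟩ := u9 h10 L κ a b T ((b - a) / 8) hP.L0 hP.κ0 hT (by linarith)
  set A : ℕ → ENNReal := fun k => ∫⁻ E in Icc a b, ENNReal.ofReal (Eq' P N k E) with hA
  have hrec : ∀ k, A (k + 1) + ENNReal.ofReal (d * (c * VV σ (N + k))) ≤ A k := by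
    intro k
    have h1 := hnoise s hs P σ hP (N + k) (Gq P N k K a b) (Gq_meas N k K a b)
      (fun E hE => hE.1) (Gq_vol N k K a b hab (hk k))
    have h2 : ENNReal.ofReal (d * (c * VV σ (N + k))) ≤ ∫⁻ E in Icc a b,
        (Gq P N k K a b).indicator
          (fun E => ENNReal.ofReal (d * Iq P T (N + k) E)) E := by
      rw [ENNReal.ofReal_mul hd.le]
      calc ENNReal.ofReal d * ENNReal.ofReal (c * VV σ (N + k))
          ≤ ENNReal.ofReal d * ∫⁻ E in Gq P N k K a b,
            ENNReal.ofReal (Iq P T (N + k) E) := by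
              gcongr
              exact h1
        _ = ∫⁻ E in Gq P N k K a b, ENNReal.ofReal (d * Iq P T (N + k) E) := by
            rw [← lintegral_const_mul' _ _ ENNReal.ofReal_ne_top]
            apply lintegral_congr
            intro E
            rw [ENNReal.ofReal_mul hd.le]
        _ = _ := by
            rw [← lintegral_indicator measurableSet_Icc, ← lintegral_indicator (Gq_meas N k K a b)]
            apply lintegral_congr
            intro E
            by_cases hE : E ∈ Gq P N k K a b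
            · rw [indicator_of_mem hE, indicator_of_mem (show E ∈ Icc a b from hE.1),
                indicator_of_mem hE]
            · rw [indicator_of_notMem hE]
              by_cases hE2 : E ∈ Icc a b
              · rw [indicator_of_mem hE2, indicator_of_notMem hE]
              · rw [indicator_of_notMem hE2]
    calc A (k + 1) + ENNReal.ofReal (d * (c * VV σ (N + k)))
        ≤ A (k + 1) + ∫⁻ E in Icc a b, (Gq P N k K a b).indicator
          (fun E => ENNReal.ofReal (d * Iq P T (N + k) E)) E := by gcongr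
      _ ≤ ∫⁻ E in Icc a b, (ENNReal.ofReal (Eq' P N (k + 1) E) +
          (Gq P N k K a b).indicator
          (fun E => ENNReal.ofReal (d * Iq P T (N + k) E)) E) := le_lintegral_add _ _
      _ ≤ A k := by
          apply lintegral_mono
          intro E
          by_cases hE : E ∈ Gq P N k K a b
          · simp only [indicator_of_mem hE]
            rw [← ENNReal.ofReal_add (Eq_nonneg _ _ _ _)
              (mul_nonneg hd.le (Iq_nonneg _ _ _ _))]
            exact ENNReal.ofReal_le_ofReal (hstep s P hPv N k a b E hE)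
          · simp only [indicator_of_notMem hE, add_zero]
            exact ENNReal.ofReal_le_ofReal (Eq_anti P N k E)
  have hsum : ∀ n, A n + ∑ k ∈ Finset.range n, ENNReal.ofReal (d * (c * VV σ (N + k))) ≤ A 0 := by
    intro n
    induction n with
    | zero => simp
    | succ n ih =>
      rw [Finset.sum_range_succ, add_comm (∑ k ∈ Finset.range n, _), ← add_assoc]
      exact (add_le_add (hrec n) le_rfl).trans ih
  have hA0 : A 0 ≤ ENNReal.ofReal (4 * (b - a)) := by
    calc A 0 ≤ ∫⁻ _ in Icc a b, ENNReal.ofReal 4 :=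
          lintegral_mono fun E => ENNReal.ofReal_le_ofReal (Eq_le P N 0 E)
      _ = ENNReal.ofReal 4 * volume (Icc a b) := by
          rw [lintegral_const, Measure.restrict_apply_univ]
      _ = _ := by
          rw [Real.volume_Icc, ENNReal.ofReal_mul (by norm_num)]
  have hfin : ∀ n, ∑ k ∈ Finset.range n, VV σ (k + N) ≤ 4 * (b - a) / (d * c) := by
    intro n
    have h1 : ∑ k ∈ Finset.range n, ENNReal.ofReal (d * (c * VV σ (N + k))) ≤
        ENNReal.ofReal (4 * (b - a)) := (le_add_self.trans (hsum n)).trans hA0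
    rw [← ENNReal.ofReal_sum_of_nonneg (fun k _ =>
        mul_nonneg hd.le (mul_nonneg hc.le (VV_nonneg σ _))),
      ENNReal.ofReal_le_ofReal_iff (by linarith)] at h1
    rw [le_div_iff₀ (by positivity), Finset.sum_mul]
    refine le_trans (le_of_eq ?_) h1
    apply Finset.sum_congr rfl
    intro k _
    rw [add_comm k N]
    ring
  have h1 : Summable (fun k => VV σ (k + N)) :=
    summable_of_sum_range_le (fun k => VV_nonneg σ _) hfin
  exact (summable_nat_add_iff N).mp h1

theorem no_Bset (h5 : T5) (h7 : T7) (h10 : T10) (P : Vtx s → Measure ℝ) (σ : Vtx s → ℝ)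
    (L κ : ℝ) (hP : GoodFam P σ L κ) (hs : ∀ n, 0 < s n) (hns : ¬ Summable (fun n => VV σ n))
    (a b : ℝ) (hab : a < b) (R : ℝ) : PQ P (Bset s 1 a b R (1 / 16)) = 0 := by
  by_contra h
  have hinf : ∀ M : ℕ, ∃ n, M ≤ n ∧ 0 < VV σ n := by
    intro M
    by_contra hcon
    push Not at hcon
    apply hns
    apply (summable_nat_add_iff M).mp
    have : (fun n => VV σ (n + M)) = fun _ => 0 := by
      funext n
      exact le_antisymm (hcon (n + M) (by omega)) (VV_nonneg σ _)
    rw [this]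
    exact summable_zero
  obtain ⟨N, K, hK, hk⟩ := u6 h5 hs P σ L κ hP hinf a b hab R h
  exact hns (total h7 h10 P σ L κ hP hs a b hab N K hK hk)

theorem final (h1 : T1) (h2a : T2a) (h2b : T2b) (h5 : T5) (h7 : T7) (h10 : T10)
    (hs : ∀ n, 0 < s n) (P : Vtx s → Measure ℝ) (σ : Vtx s → ℝ) (L κ : ℝ)
    (hP : GoodFam P σ L κ) (hns : ¬ Summable (fun n => VV σ n)) :
    ∀ᵐ v ∂(PQ P), ∀ H : L2 s →L[ℂ] L2 s, IsAnderson s 1 v H →
      ∀ (ψ : L2 s) (ν : Measure ℝ), IsSpec H ψ ν → ν ⟂ₘ volume := by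
  have hPr := hP.prob
  have hall : ∀ᵐ v ∂(PQ P), ∀ (a b : ℚ) (R : ℕ), (a : ℝ) < b →
      v ∉ Bset s 1 a b R (1 / 16) := by
    rw [ae_all_iff]
    intro a
    rw [ae_all_iff]
    intro b
    rw [ae_all_iff]
    intro R
    by_cases hab : (a : ℝ) < b
    · have := no_Bset h5 h7 h10 P σ L κ hP hs hns a b hab R
      filter_upwards [measure_eq_zero_iff_ae_notMem.mp this] with v hv _
      exact hv
    · exact Eventually.of_forall fun v h => absurd h hab
  filter_upwards [hall] with v hv H hH ψ ν hν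
  by_contra hsing
  have hsa := isSelfAdjoint_anderson hH
  obtain ⟨w, hw, hw0, hwc⟩ := h2a s hs 1 v H hH ψ ν hν (h1 (L2 s) H hsa ψ ν hν) hsing
  have hcm : ∀ n, Measurable (fun E => col s 1 v E n) := fun n =>
    (col_meas 1 n).comp measurable_prodMk_left
  obtain ⟨a, b, hab, R, hR⟩ := h2b w hw hw0 (fun n E => col s 1 v E n) hcm
    (fun n E => by unfold Pool.Agent.H508R3.AT.col; positivity) hwc (1 / 16) (by norm_num)
  exact hv a b R hab hR

end Pool.Agent.Y663.SH
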