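import Pool.Agent.Y663.SH.Asm
import Pool.Agent.H337R3.AT_T1
import Pool.Agent.H77R3.AT.T2a
import Pool.Agent.H589R3.AT_T2b
import Pool.Agent.H345R3.AT_T5
import Pool.Agent.H217R3.AT_T7
import Pool.Agent.H791R3.AT.AT_T10
import Pool.Agent.H54R3.Spec508

/-! The two forms of the theorem. -/

set_option autoImplicit false

namespace Pool.Agent.Y663.SH

open MeasureTheory Filter Topology Set
open Pool.Agent.H695R3.AT
open Pool.Agent.H508R3.AT (Om IsSpec)

variable {s : ℕ → ℕ}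

theorem indep (hs : ∀ n, 0 < s n) (P : Vtx s → Measure ℝ) (σ : Vtx s → ℝ) (L κ : ℝ)
    (hP : GoodFam P σ L κ) (hns : ¬ Summable (fun n => VV σ n)) :
    ∀ᵐ v ∂(PQ P), ∀ H : L2 s →L[ℂ] L2 s, IsAnderson s 1 v H →
      ∀ (ψ : L2 s) (ν : Measure ℝ), IsSpec H ψ ν → ν ⟂ₘ volume :=
  final Pool.Agent.H337R3.AT1.t1 Pool.Agent.H77R3.AT2a.t2a Pool.Agent.H589R3.AT.t2b
    Pool.Agent.H345R3.AT5.t5 Pool.Agent.H217R3.AT7.t7 Pool.Agent.H791R3.AT.t10 hs P σ L κ hP hns

/-- the potentials are almost surely bounded -/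
lemma bdd (P : Vtx s → Measure ℝ) (σ : Vtx s → ℝ) (L κ : ℝ) (hP : GoodFam P σ L κ) :
    ∀ᵐ v ∂(PQ P), ∀ x : Vtx s, |v x| ≤ L := by
  have hPr := hP.prob
  rw [ae_all_iff]
  intro x
  have h1 : ∀ᵐ t ∂(P x), |t| ≤ L := by
    rw [ae_iff]
    refine measure_mono_null (fun t ht => ?_) (hP.supp x)
    intro hc
    exact ht (abs_le.2 hc)
  exact (measurePreserving_eval_infinitePi P x).quasiMeasurePreserving.ae h1

/-- a law that is not a point mass is uniformly spread at some scale -/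
lemma exists_spread (Pv : Measure ℝ) (hPr : IsProbabilityMeasure Pv)
    (h1 : Pv (Icc (-1) 1)ᶜ = 0) (h2 : ∀ c : ℝ, Pv {c} < 1) :
    ∃ r κ : ℝ, 0 < r ∧ 0 < κ ∧ ∀ c : ℝ, Pv {t | |t - c| < r} ≤ ENNReal.ofReal (1 - κ) := by
  obtain ⟨η, p, hη, hp, hpm⟩ := Pool.Agent.H941R3.AT.exists_diff Pv ⟨hPr, h1, h2⟩
  refine ⟨η / 2, p / 2, by positivity, by positivity, fun c => ?_⟩
  set A : Set ℝ := {t | |t - c| < η / 2} with hA
  have hAm : MeasurableSet A := measurableSet_lt (by fun_prop) measurable_const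
  have hSm : MeasurableSet {x : ℝ × ℝ | η ≤ |x.1 - x.2|} :=
    measurableSet_le measurable_const (by fun_prop)
  have hdisj : Disjoint (A ×ˢ A) {x : ℝ × ℝ | η ≤ |x.1 - x.2|} := by
    rw [Set.disjoint_left]
    rintro ⟨x, y⟩ hxy hx
    obtain ⟨hx1, hy1⟩ := hxy
    simp only [hA, mem_ofPred_eq] at hx1 hy1 hx
    have h3 : |x - y| ≤ |x - c| + |y - c| := by
      have : x - y = (x - c) - (y - c) := by ring
      rw [this]
      exact abs_sub _ _
    linarith
  have h3 : (Pv.prod Pv).real (A ×ˢ A) + (Pv.prod Pv).real {x : ℝ × ℝ | η ≤ |x.1 - x.2|} ≤ 1 := by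
    rw [← measureReal_union hdisj hSm]
    exact measureReal_le_one
  have h4 : (Pv.prod Pv).real (A ×ˢ A) = Pv.real A * Pv.real A := by
    rw [measureReal_prod_prod]
  have h5 : Pv.real A ≤ 1 - p / 2 := by
    have h6 : 0 ≤ Pv.real A := measureReal_nonneg
    nlinarith
  rw [← ENNReal.ofReal_toReal (measure_ne_top Pv A)]
  exact ENNReal.ofReal_le_ofReal h5

theorem inhom (hs : ∀ n, 0 < s n) (Pv : Measure ℝ) (hPr : IsProbabilityMeasure Pv)
    (h1 : Pv (Icc (-1) 1)ᶜ = 0) (h2 : ∀ c : ℝ, Pv {c} < 1) (w lam : Vtx s → ℝ) (C : ℝ)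
    (hw : ∀ x, |w x| ≤ C) (hlam : ∀ x, |lam x| ≤ C)
    (hns : ¬ Summable (fun n => (∑ i : Fin (s n), lam ⟨n, i⟩ ^ 2) / (s n : ℝ) ^ 2)) :
    (∀ᵐ v ∂(Measure.infinitePi fun _ : Vtx s => Pv), ∀ x : Vtx s, |w x + lam x * v x| ≤ 2 * C + 1) ∧
    ∀ᵐ v ∂(Measure.infinitePi fun _ : Vtx s => Pv), ∀ H : L2 s →L[ℂ] L2 s,
      IsAnderson s 1 (fun x => w x + lam x * v x) H →
      ∀ (ψ : L2 s) (ν : Measure ℝ), IsSpec H ψ ν → ν ⟂ₘ volume := by
  obtain ⟨r, κ, hr, hκ, hsp⟩ := exists_spread Pv hPr h1 h2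
  have hx0 : Nonempty (Vtx s) := ⟨⟨0, ⟨0, hs 0⟩⟩⟩
  have hC : 0 ≤ C := (abs_nonneg _).trans (hw hx0.some)
  set f : Vtx s → ℝ → ℝ := fun x t => w x + lam x * t with hf
  have hfm : ∀ x, Measurable (f x) := fun x => by fun_prop
  set P : Vtx s → Measure ℝ := fun x => Pv.map (f x) with hP
  have hbd : ∀ x, ∀ t ∈ Icc (-1 : ℝ) 1, |f x t| ≤ 2 * C + 1 := by
    intro x t ht
    have h3 : |lam x * t| ≤ C := by
      rw [abs_mul]
      calc |lam x| * |t| ≤ C * 1 := mul_le_mul (hlam x) (abs_le.mpr ht) (abs_nonneg _) hC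
        _ = C := mul_one C
    calc |f x t| ≤ |w x| + |lam x * t| := abs_add_le _ _
      _ ≤ 2 * C + 1 := by linarith [hw x]
  have hG : GoodFam P (fun x => |lam x| * r) (2 * C + 1) κ := by
    refine ⟨fun x => Measure.isProbabilityMeasure_map (hfm x).aemeasurable, by positivity, hκ,
      fun x => ?_, fun x => by positivity, fun x c => ?_⟩
    · simp only [hP]
      rw [Measure.map_apply (hfm x) measurableSet_Icc.compl]
      refine measure_mono_null (fun t ht => ?_) h1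
      intro hc
      exact ht (abs_le.mp (hbd x t hc))
    · simp only [hP]
      have hm : MeasurableSet {t : ℝ | |t - c| < |lam x| * r} :=
        measurableSet_lt (by fun_prop) measurable_const
      rw [Measure.map_apply (hfm x) hm]
      rcases eq_or_ne (lam x) 0 with h0 | h0
      · have : f x ⁻¹' {t : ℝ | |t - c| < |lam x| * r} = ∅ := by
          ext t
          simp [h0]
        rw [this]
        simp
      · refine (measure_mono ?_).trans (hsp ((c - w x) / lam x))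
        intro t ht
        simp only [mem_preimage, mem_ofPred_eq, hf] at ht ⊢
        have h3 : w x + lam x * t - c = lam x * (t - (c - w x) / lam x) := by
          field_simp
          ring
        rw [h3, abs_mul] at ht
        exact lt_of_mul_lt_mul_left ht (abs_nonneg _)
  have hns' : ¬ Summable (fun n => VV (fun x => |lam x| * r) n) := by
    intro hsum
    apply hns
    have e : (fun n => (∑ i : Fin (s n), lam ⟨n, i⟩ ^ 2) / (s n : ℝ) ^ 2) =
        fun n => (r ^ 2)⁻¹ * VV (fun x => |lam x| * r) n := by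
      funext n
      unfold VV
      simp only [mul_pow, sq_abs]
      rw [← Finset.sum_mul]
      field_simp
    rw [e]
    exact hsum.mul_left _
  have hmap : (Measure.infinitePi fun _ : Vtx s => Pv).map (fun v x => f x (v x)) = PQ P :=
    Measure.infinitePi_map_pi (μ := fun _ : Vtx s => Pv) hfm
  have hmeas : AEMeasurable (fun (v : Vtx s → ℝ) x => f x (v x))
      (Measure.infinitePi fun _ : Vtx s => Pv) :=
    (measurable_pi_lambda _ fun x => (hfm x).comp (measurable_pi_apply x)).aemeasurable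
  constructor
  · have := bdd P _ _ _ hG
    rw [← hmap] at this
    exact ae_of_ae_map hmeas this
  · have := indep hs P _ _ _ hG hns'
    rw [← hmap] at this
    exact ae_of_ae_map hmeas this

end Pool.Agent.Y663.SH
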